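import Pool.Agent.Helper47.Rig.IntrArc

/-!
MP_16b052_ag: if a local algebra `A ≠ k` over an algebraically closed field `k` is rigid, then
every homomorphism `A → k[X]/(X^N)` kills the socle of `A`.
-/

namespace Pool.Agent.Results.MP_16b052_ag.ArcSocle

open Module IsLocalRing Polynomial Helper47.Rig

universe u v

theorem result (k : Type u) [Field k] [IsAlgClosed k] (A : Type v) [CommRing A] [IsLocalRing A]
    [Algebra k A] [Module.Finite k A] (h2 : 2 ≤ finrank k A) (hr : Rigid k A) (N : ℕ)
    (χ : A →ₐ[k] (k[X] ⧸ Ideal.span {(X : k[X]) ^ N})) (s : A)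
    (hs : ∀ a ∈ maximalIdeal A, s * a = 0) : χ s = 0 := by
  by_contra hcon
  by_cases hsm : s ∈ maximalIdeal A
  · exact not_rigid_of_arc N χ s hsm hs hcon hr
  · -- `s` is a unit, so `𝔪 = 0` and `A = k`
    have hu : IsUnit s := by
      rw [mem_maximalIdeal, mem_nonunits_iff, not_not] at hsm
      exact hsm
    have hm : ∀ a ∈ maximalIdeal A, a = 0 := fun a ha => (hu.mul_right_eq_zero).1 (hs a ha)
    obtain ⟨ε, hε⟩ := exists_aug (k := k) (A := A)
    have h1 : finrank k A ≤ 1 := by
      rw [finrank_le_one_iff]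
      refine ⟨1, fun a => ⟨ε a, ?_⟩⟩
      have h := hm (a - ε a • 1) (by
        rw [hε, map_sub, map_smul, map_one, smul_eq_mul, mul_one, sub_self])
      rw [sub_eq_zero] at h
      exact h.symm
    omega

end Pool.Agent.Results.MP_16b052_ag.ArcSocle
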