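import Pool.Agent.Helper47.Rig.Final

/-!
MP_16b052_ag: over an algebraically closed field of any characteristic, no local algebra of
dimension at least `2` with `𝔪³ = 0` is rigid.
-/

namespace Pool.Agent.Results.MP_16b052_ag.CubeZero

open Module IsLocalRing Helper47.Rig

universe u v

theorem result (k : Type u) [Field k] [IsAlgClosed k] (A : Type v) [CommRing A] [IsLocalRing A]
    [Algebra k A] [Module.Finite k A] (h2 : 2 ≤ finrank k A) (h3 : maximalIdeal A ^ 3 = ⊥) :
    ¬ Rigid k A :=
  not_rigid_cube_zero k A h2 h3

end Pool.Agent.Results.MP_16b052_ag.CubeZero
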