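import Pool.Agent.Helper47.Rig.Final

/-!
MP_16b052_ag: if a local algebra `A` over an algebraically closed field is rigid, then every
`e ∈ 𝔪 ∖ 𝔪²` has `dim (e𝔪) ≥ 2`.
-/

namespace Pool.Agent.Results.MP_16b052_ag.ElementRank

open Module IsLocalRing Helper47.Rig

universe u v

theorem result (k : Type u) [Field k] [IsAlgClosed k] (A : Type v) [CommRing A] [IsLocalRing A]
    [Algebra k A] [Module.Finite k A] (hr : Rigid k A) (e : A) (he : e ∈ maximalIdeal A)
    (he2 : e ∉ maximalIdeal A ^ 2) :
    2 ≤ finrank k (Ideal.span {e} * maximalIdeal A : Ideal A) := by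
  by_contra hcon
  exact not_rigid_of_finrank_le_one e he he2 (by omega) hr

end Pool.Agent.Results.MP_16b052_ag.ElementRank
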