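import Pool.Agent.Helper49.RA.Asm
import Pool.Agent.Helper47.RK.Reps
import Pool.Agent.Helper47.RK.FinA
import Pool.Agent.Helper47.RK.FinB
import Pool.Agent.Helper47.RB.Fin2

/-!
MP_16b052_ag, Q1 (yes): over every algebraically closed field, of any characteristic, there is a
rigid local finite-dimensional commutative algebra of dimension at least `2`.

* Characteristic different from `2` (project RA / RK): the graded Gorenstein algebra
  `k[x_i : i ∈ (ℤ/2)^6] / Ann(Φ)` in `64` variables of a quartic form invariant under the Heisenberg
  group of `(ℤ/2)^6`; Hilbert function `(1, 64, 754, 64, 1)`.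
* Characteristic `2` (projects RG2 / RB / RC, algebra of helper94): a graded Gorenstein algebra in
  `30` variables with a grading by `ℤ/61`; Hilbert function `(1, 30, 181, 30, 1)`.
-/

namespace Pool.Agent.Results.MP_16b052_ag.RigidLocal

open Helper49.RA Helper47.RK

universe u

theorem result (k : Type u) [Field k] [IsAlgClosed k] :
    ∃ (A : Type u) (_ : CommRing A) (_ : Algebra k A) (_ : IsLocalRing A)
      (_ : Module.Finite k A), 2 ≤ Module.finrank k A ∧ Helper47.Rig.Rigid k A := by
  by_cases h2 : (2 : k) = 0
  · exact Helper47.RB.char_two k h2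
  · have hcode : IsCode e6 f0 := good'.{u}.2.1.code
    refine main_of k h2 ?_ (uniq0_final bR cO' hcode k h2) (tabA_final bR k h2)
    intro r hr
    exact (reps_ok r hr).uniq tR bR cO' hcode k h2

end Pool.Agent.Results.MP_16b052_ag.RigidLocal
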